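import Mathlib
import Pool.Agent.Helper303.MbDom2

open MeasureTheory Set
open Pool.Agent.Helper303.Mb

namespace Pool.Agent.Results.MP_7cc380_an.UniformFails

/-- For every `n ≥ 2` the `∂̄`-equation in bidegree `(0,1)` does not admit uniform estimates on the
generalized unit disc `{Z ∈ M_n(ℂ) : I - Z Z^* > 0}`. -/
theorem result : ∀ n : ℕ, 2 ≤ n → ¬ UniformEstimates01 (genDisc n) := by
  intro n hn
  obtain ⟨m, rfl⟩ : ∃ m, n = m + 2 := ⟨n - 2, by omega⟩
  exact genDisc_uniform m

end Pool.Agent.Results.MP_7cc380_an.UniformFails
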